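import Pool.Agent.H.P40.Tree

set_option autoImplicit false

namespace Pool.Agent.H.P40

set_option maxRecDepth 1000000 in
theorem dead34d : rangeDead 34 1330 24 1 = true := by decide +kernel

set_option maxRecDepth 1000000 in
theorem dead34e : rangeDead 34 1330 25 8 = true := by decide +kernel

end Pool.Agent.H.P40
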