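import Pool.Agent.H.P40.Tree

set_option autoImplicit false

namespace Pool.Agent.H.P40

set_option maxRecDepth 1000000 in
theorem dead38a : rangeDead 38 1480 0 27 = true := by decide +kernel

set_option maxRecDepth 1000000 in
theorem dead38b : rangeDead 38 1480 27 1 = true := by decide +kernel

end Pool.Agent.H.P40
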