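import Pool.Agent.H.P40.NoCarry

set_option autoImplicit false

namespace Pool.Agent.H.P40

open N4baffcff

theorem rangeDead_spec {k fuel s t e : ℕ} (h : rangeDead k fuel s t = true) (he : s + 1 ≤ e)
    (hek : e ≤ s + t) : rootDead k fuel e = true := by
  unfold rangeDead at h
  rw [List.all_eq_true] at h
  have := h (e - s - 1) (by simp; omega)
  rwa [show s + (e - s - 1) + 1 = e by omega] at this

/-- If all trees of `k` die then no `k`-th power of a palindrome `x > 1` is a palindrome. -/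
theorem main {k fuel x : ℕ} (hk : 5 ≤ k) (h : ∀ e, 1 ≤ e → e ≤ k - 1 → rootDead k fuel e = true)
    (hx : 1 < x) (hpx : IsDecimalPalindrome x) : ¬ IsDecimalPalindrome (x ^ k) := by
  intro hpy
  obtain ⟨hn1, hxl, hxu⟩ := len_bounds (show 0 < x by omega)
  obtain ⟨hN1, hyl, hyu⟩ := len_bounds (show 0 < x ^ k by positivity)
  have h1 : k * ((Nat.digits 10 x).length - 1) < (Nat.digits 10 (x ^ k)).length := by
    rw [← Nat.pow_lt_pow_iff_right (show 1 < 10 by norm_num)]
    calc 10 ^ (k * ((Nat.digits 10 x).length - 1)) = (10 ^ ((Nat.digits 10 x).length - 1)) ^ k := by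
          rw [← pow_mul]; congr 1; ring
      _ ≤ x ^ k := Nat.pow_le_pow_left hxl k
      _ < _ := hyu
  have h2 : (Nat.digits 10 (x ^ k)).length - 1 < k * (Nat.digits 10 x).length := by
    rw [← Nat.pow_lt_pow_iff_right (show 1 < 10 by norm_num)]
    calc 10 ^ ((Nat.digits 10 (x ^ k)).length - 1) ≤ x ^ k := hyl
      _ < (10 ^ (Nat.digits 10 x).length) ^ k := Nat.pow_lt_pow_left hxu (by omega)
      _ = _ := by rw [← pow_mul]; congr 1; ring
  have h3 : k * (Nat.digits 10 x).length = k * ((Nat.digits 10 x).length - 1) + k := by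
    obtain ⟨c, hc⟩ : ∃ c, (Nat.digits 10 x).length = c + 1 :=
      ⟨(Nat.digits 10 x).length - 1, by omega⟩
    rw [hc, Nat.add_sub_cancel]; ring
  have hsx : ∀ i < (Nat.digits 10 x).length, dg x i = dg x ((Nat.digits 10 x).length - 1 - i) :=
    fun i hi => pal_dg hpx hi
  have hsy : ∀ i < (Nat.digits 10 (x ^ k)).length,
      dg (x ^ k) i = dg (x ^ k) ((Nat.digits 10 (x ^ k)).length - 1 - i) :=
    fun i hi => pal_dg hpy hi
  obtain ⟨e, he⟩ : ∃ e, (Nat.digits 10 (x ^ k)).length =
      k * ((Nat.digits 10 x).length - 1) + 1 + e :=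
    ⟨(Nat.digits 10 (x ^ k)).length - (k * ((Nat.digits 10 x).length - 1) + 1), by omega⟩
  rcases Nat.eq_zero_or_pos e with h0 | h0
  · subst h0
    exact no_carry hk hx hpx he hpy
  · exact rootDead_sound (show 1 ≤ k by omega) hn1 he hxu hxl hyu hsx hsy
      (h e h0 (by omega))

end Pool.Agent.H.P40
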