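import Pool.Agent.H.P40.Sound

set_option autoImplicit false

namespace Pool.Agent.H.P40

open N4baffcff Polynomial

theorem sum_lt (D : ℕ) (b : ℕ → ℕ) (hb : ∀ i ≤ D, b i ≤ 9) :
    ∑ i ∈ Finset.range (D + 1), b i * 10 ^ i < 10 ^ (D + 1) := by
  induction D with
  | zero => simp; have := hb 0 le_rfl; omega
  | succ D ih =>
    rw [Finset.sum_range_succ]
    have h1 := ih (fun i hi => hb i (by omega))
    have h2 := hb (D + 1) le_rfl
    have h3 : b (D + 1) * 10 ^ (D + 1) ≤ 9 * 10 ^ (D + 1) := Nat.mul_le_mul_right _ h2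
    calc _ < 10 ^ (D + 1) + 9 * 10 ^ (D + 1) := by omega
      _ = 10 ^ (D + 1 + 1) := by ring

/-- A symmetric representation equals the symmetric digit representation. -/
theorem sym_unique (D : ℕ) : ∀ q b : ℕ → ℕ, (∀ i ≤ D, b i ≤ 9) →
    (∀ i ≤ D, q i = q (D - i)) → (∀ i ≤ D, b i = b (D - i)) →
    ∑ i ∈ Finset.range (D + 1), q i * 10 ^ i = ∑ i ∈ Finset.range (D + 1), b i * 10 ^ i →
    ∀ i ≤ D, q i = b i := by
  induction D using Nat.strong_induction_on with
  | _ D ih =>
    intro q b hb hq hbs hsum
    match D, ih, hb, hq, hbs, hsum with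
    | 0, _, _, _, _, hsum =>
      intro i hi
      obtain rfl : i = 0 := by omega
      simpa using hsum
    | 1, _, _, hq, hbs, hsum =>
      have h1 := hq 0 (by omega)
      have h2 := hbs 0 (by omega)
      simp [Finset.sum_range_succ] at hsum h1 h2
      intro i hi
      interval_cases i <;> omega
    | D + 2, ih, hb, hq, hbs, hsum =>
      have hlt := sum_lt (D + 2) b hb
      rw [← hsum] at hlt
      have e1 : ∀ f : ℕ → ℕ, ∑ i ∈ Finset.range (D + 2 + 1), f i * 10 ^ i =
          10 * (∑ i ∈ Finset.range (D + 1), f (i + 1) * 10 ^ i) + f 0 +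
            f (D + 2) * 10 ^ (D + 2) := by
        intro f
        rw [Finset.sum_range_succ, Finset.sum_range_succ', Finset.mul_sum]
        congr 1
        simp only [pow_zero, mul_one]
        congr 1
        apply Finset.sum_congr rfl
        intro i _
        ring
      rw [e1] at hlt hsum
      rw [e1] at hsum
      have hq0 := hq 0 (by omega)
      have hb0 := hbs 0 (by omega)
      simp only [Nat.sub_zero] at hq0 hb0
      have hqD : q (D + 2) ≤ 9 := by
        by_contra hc
        have h5 : 10 * 10 ^ (D + 2) ≤ q (D + 2) * 10 ^ (D + 2) :=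
          Nat.mul_le_mul_right _ (by omega)
        have h6 : (10 : ℕ) ^ (D + 2 + 1) = 10 * 10 ^ (D + 2) := by ring
        omega
      have hb9 := hb 0 (by omega)
      have e2 : (10 : ℕ) ^ (D + 2) = 10 * 10 ^ (D + 1) := by ring
      have hqb : q 0 = b 0 := by
        rw [e2] at hsum
        have h7 : q (D + 2) * (10 * 10 ^ (D + 1)) = 10 * (q (D + 2) * 10 ^ (D + 1)) := by ring
        have h8 : b (D + 2) * (10 * 10 ^ (D + 1)) = 10 * (b (D + 2) * 10 ^ (D + 1)) := by ring
        rw [h7, h8] at hsum
        omega
      have hqbD : q (D + 2) = b (D + 2) := by omega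
      rw [hqbD, hqb] at hsum
      have hin : ∑ i ∈ Finset.range (D + 1), q (i + 1) * 10 ^ i =
          ∑ i ∈ Finset.range (D + 1), b (i + 1) * 10 ^ i := by omega
      have h9 := ih D (by omega) (fun i => q (i + 1)) (fun i => b (i + 1))
        (fun i hi => hb (i + 1) (by omega))
        (fun i hi => by
          have := hq (i + 1) (by omega)
          rw [this]; congr 1; omega)
        (fun i hi => by
          have := hbs (i + 1) (by omega)
          rw [this]; congr 1; omega) hin
      intro i hi
      rcases Nat.eq_zero_or_pos i with h | h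
      · subst h; exact hqb
      · rcases hi.eq_or_lt with h2 | h2
        · subst h2; exact hqbD
        · have := h9 (i - 1) (by omega)
          rwa [Nat.sub_add_cancel h] at this

theorem sum_dg (m L : ℕ) : ∑ i ∈ Finset.range L, dg m i * 10 ^ i = m % 10 ^ L := by
  induction L with
  | zero => simp [Nat.mod_one]
  | succ L ih => rw [Finset.sum_range_succ, ih, mod_step]

theorem coeff_pow_mono (F P : ℕ[X]) (h : ∀ i, F.coeff i ≤ P.coeff i) (k : ℕ) :
    ∀ i, (F ^ k).coeff i ≤ (P ^ k).coeff i := by
  induction k with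
  | zero => intro i; simp
  | succ k ih =>
    intro i
    rw [pow_succ, pow_succ, coeff_mul, coeff_mul]
    exact Finset.sum_le_sum fun a _ => Nat.mul_le_mul (ih _) (h _)

theorem reflect_pow_self (P : ℕ[X]) (m : ℕ) (hd : P.natDegree ≤ m) (h : reflect m P = P) (k : ℕ) :
    reflect (k * m) (P ^ k) = P ^ k := by
  induction k with
  | zero => simp [reflect_one]
  | succ k ih =>
    rw [pow_succ, Nat.succ_mul, reflect_mul _ _ (natDegree_pow_le_of_le k hd |>.trans (by simp)) hd,
      ih, h]

/-- No carries: if `x ^ k` has the least possible number of digits, it is not a palindrome. -/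
theorem no_carry {k x : ℕ} (hk : 5 ≤ k) (hx : 1 < x) (hpx : IsDecimalPalindrome x)
    (hlen : (Nat.digits 10 (x ^ k)).length = k * ((Nat.digits 10 x).length - 1) + 1) :
    ¬ IsDecimalPalindrome (x ^ k) := by
  intro hpy
  obtain ⟨hn1, hxl, hxu⟩ := len_bounds (show 0 < x by omega)
  obtain ⟨-, -, hyu⟩ := len_bounds (show 0 < x ^ k by positivity)
  have hsx : ∀ i < (Nat.digits 10 x).length, dg x i = dg x ((Nat.digits 10 x).length - 1 - i) :=
    fun i hi => pal_dg hpx hi
  have hsy : ∀ i < (Nat.digits 10 (x ^ k)).length,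
      dg (x ^ k) i = dg (x ^ k) ((Nat.digits 10 (x ^ k)).length - 1 - i) :=
    fun i hi => pal_dg hpy hi
  rw [hlen] at hyu hsy
  generalize (Nat.digits 10 x).length = n at *
  rcases Nat.lt_or_ge n 2 with hn | hn
  · obtain rfl : n = 1 := by omega
    simp at hyu
    have : 2 ^ 5 ≤ x ^ k := (Nat.pow_le_pow_left (show 2 ≤ x by omega) 5).trans
      (Nat.pow_le_pow_right (by omega) hk)
    omega
  · set P : ℕ[X] := ∑ i ∈ Finset.range n, monomial i (dg x i) with hP
    have hc : ∀ i, P.coeff i = if i < n then dg x i else 0 := by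
      intro i
      rw [hP, finsetSum_coeff]
      simp only [coeff_monomial]
      rw [Finset.sum_ite_eq' (Finset.range n) i (fun j => dg x j)]
      simp
    have hd : P.natDegree ≤ n - 1 := by
      rw [natDegree_le_iff_coeff_eq_zero]
      intro i hi
      rw [hc, if_neg (by omega)]
    have hrefl : reflect (n - 1) P = P := by
      ext i
      rw [coeff_reflect]
      rcases Nat.lt_or_ge (n - 1) i with h | h
      · rw [revAt_eq_self_of_lt h]
      · rw [revAt_le h, hc, hc, if_pos (by omega), if_pos (by omega), hsx i (by omega)]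
    have hQd : (P ^ k).natDegree ≤ k * (n - 1) := natDegree_pow_le_of_le k hd
    have hQr := reflect_pow_self P (n - 1) hd hrefl k
    have hQs : ∀ i ≤ k * (n - 1), (P ^ k).coeff i = (P ^ k).coeff (k * (n - 1) - i) := by
      intro i hi
      have h3 := congrArg (fun f => coeff f i) hQr
      simp only [coeff_reflect] at h3
      rw [revAt_le hi] at h3
      exact h3.symm
    have hPe : P.eval 10 = x := by
      rw [hP, eval_finsetSum]
      simp only [eval_monomial]
      rw [sum_dg, Nat.mod_eq_of_lt hxu]
    have hQe : ∑ i ∈ Finset.range (k * (n - 1) + 1), (P ^ k).coeff i * 10 ^ i = x ^ k := by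
      rw [← eval_eq_sum_range' (Nat.lt_succ_of_le hQd), eval_pow, hPe]
    have hsy' : ∀ i ≤ k * (n - 1), dg (x ^ k) i = dg (x ^ k) (k * (n - 1) - i) := by
      intro i hi
      have := hsy i (by omega)
      rwa [Nat.add_sub_cancel] at this
    have hall := sym_unique (k * (n - 1)) (fun i => (P ^ k).coeff i) (fun i => dg (x ^ k) i)
      (fun i _ => by have := dg_lt (x ^ k) i; omega) hQs hsy'
      (by
        rw [hQe, sum_dg, Nat.mod_eq_of_lt hyu])
    have h2 : 2 * (n - 1) ≤ k * (n - 1) := Nat.mul_le_mul_right _ (by omega)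
    have h3 := hall (2 * (n - 1)) h2
    have h4 := dg_lt (x ^ k) (2 * (n - 1))
    have htop : 1 ≤ dg x (n - 1) := by
      unfold dg
      have h5 : x / 10 ^ (n - 1) < 10 := by
        rw [Nat.div_lt_iff_lt_mul (by positivity), ← pow_succ']
        rwa [Nat.sub_add_cancel hn1]
      rw [Nat.mod_eq_of_lt h5, Nat.one_le_div_iff (by positivity)]
      exact hxl
    have hbot : 1 ≤ dg x 0 := by
      rw [hsx 0 (by omega)]; simpa using htop
    have hF : ∀ i, (expand ℕ (n - 1) (1 + X : ℕ[X])).coeff i ≤ P.coeff i := by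
      intro i
      rw [map_add, map_one, expand_X, coeff_add, coeff_one, coeff_X_pow, hc]
      by_cases h0 : i = 0
      · subst h0
        rw [if_pos rfl, if_neg (by omega), if_pos (by omega)]
        simpa using hbot
      · by_cases h1 : i = n - 1
        · subst h1
          rw [if_neg h0, if_pos rfl, if_pos (by omega)]
          simpa using htop
        · rw [if_neg h0, if_neg h1]
          simp
    have h6 := coeff_pow_mono _ P hF k (2 * (n - 1))
    rw [← map_pow, coeff_expand_mul (by omega), coeff_one_add_X_pow] at h6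
    have h7 : Nat.choose 5 2 ≤ Nat.choose k 2 := Nat.choose_le_choose 2 hk
    have h8 : Nat.choose 5 2 = 10 := by decide
    simp only [Nat.cast_id] at h6
    omega

end Pool.Agent.H.P40
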