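set_option autoImplicit false

namespace Pool.Agent.H.P40

/-- Evaluate a number to a literal before passing it on. -/
def force (n : Nat) (f : Nat → Bool) : Bool :=
  Nat.rec (f 0) (fun m _ => f (Nat.succ m)) n

theorem force_eq (n : Nat) (f : Nat → Bool) : force n f = f n := by
  cases n <;> rfl

/-- `y` is not an `N`-digit palindrome (a digit differs from its mirror image). -/
def nonPal (y N : Nat) : Bool :=
  (List.range N).any (fun i => !Nat.beq (y / 10 ^ i % 10) (y / 10 ^ (N - 1 - i) % 10))

/-- The child test. -/
def keep (k A G m : Nat) : Bool :=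
  cond (Nat.ble (Nat.pow (Nat.succ A) k) (Nat.mul G (Nat.pow 10 m))) false
    (cond (Nat.ble (Nat.mul (Nat.succ G) (Nat.pow 10 m)) (Nat.pow A k)) false true)

/-- The two-ended digit tree; `j` is the level; the last digits `r` are stored as
`u = r * 2 ^ 64 + (A mod 2 ^ 64)`, which keeps the low bits of all stored numbers different.
The number `c` is `k * r ^ (k - 1)` modulo ten. -/
def dead (k e c : Nat) : Nat → Nat → Nat → Nat → Nat → Bool
  | 0, _, _, _, _ => false
  | fuel + 1, A, u, G, j =>
    cond (cond (Nat.beq A (Nat.div u 18446744073709551616))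
        (nonPal (Nat.pow A k) (k * (j - 1) + 1 + e)) true)
      (force (Nat.mod (Nat.div
          (Nat.pow (Nat.div u 18446744073709551616) k) (Nat.pow 10 j)) 10) fun g =>
       [0, 1, 2, 3, 4, 5, 6, 7, 8, 9].all fun d =>
        force (Nat.add (Nat.mul 10 A) d) fun A' =>
        force (Nat.add (Nat.mul (Nat.add (Nat.div u 18446744073709551616)
          (Nat.mul d (Nat.pow 10 j))) 18446744073709551616)
            (Nat.mod A' 18446744073709551616)) fun u' =>
        force (Nat.add (Nat.mul 10 G) (Nat.mod (Nat.add g (Nat.mul c d)) 10)) fun G' =>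
          cond (keep k A' G' (Nat.add (Nat.mul (Nat.pred k) j) e))
            (dead k e c fuel A' u' G' (Nat.succ j)) true) false

/-- All first digits. -/
def rootDead (k fuel e : Nat) : Bool :=
  [1, 2, 3, 4, 5, 6, 7, 8, 9].all fun a =>
    force (a ^ k % 10) fun g => force (k * a ^ (k - 1) % 10) fun c =>
      cond (keep k a g e) (dead k e c fuel a (a * 18446744073709551616 + a) g 1) true

/-- The trees of the exponents `e` from `s + 1` to `s + t`. -/
def rangeDead (k fuel s t : Nat) : Bool :=
  (List.range t).all fun e => rootDead k fuel (s + e + 1)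

end Pool.Agent.H.P40
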