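import Mathlib
import Pool.Prelude.Def_F_f86fdde6
import Pool.Agent.H.P40.Tree

set_option autoImplicit false

namespace Pool.Agent.H.P40

open N4baffcff

/-- The `i`-th decimal digit. -/
def dg (m i : ℕ) : ℕ := m / 10 ^ i % 10

theorem getD_dg (m i : ℕ) : (Nat.digits 10 m).getD i 0 = dg m i :=
  Nat.getD_digits m i (by norm_num)

theorem pal_dg {m : ℕ} (h : IsDecimalPalindrome m) {i : ℕ} (hi : i < (Nat.digits 10 m).length) :
    dg m i = dg m ((Nat.digits 10 m).length - 1 - i) := by
  rw [← getD_dg, ← getD_dg]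
  have h2 : (Nat.digits 10 m).getD i 0 = ((Nat.digits 10 m).reverse).getD i 0 := by
    rw [← h]
  rw [h2, List.getD_eq_getElem?_getD, List.getD_eq_getElem?_getD,
    List.getElem?_reverse hi]

theorem len_bounds {m : ℕ} (hm : 0 < m) :
    1 ≤ (Nat.digits 10 m).length ∧ 10 ^ ((Nat.digits 10 m).length - 1) ≤ m ∧
      m < 10 ^ (Nat.digits 10 m).length := by
  have h1 : (Nat.digits 10 m).length = Nat.log 10 m + 1 := Nat.length_digits 10 m (by norm_num) hm.ne'
  rw [h1]
  refine ⟨by omega, ?_, ?_⟩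
  · simpa using Nat.pow_log_le_self 10 hm.ne'
  · exact Nat.lt_pow_succ_log_self (by norm_num) m

theorem dg_lt (m i : ℕ) : dg m i < 10 := Nat.mod_lt _ (by norm_num)

theorem div_step (m a : ℕ) (ha : 1 ≤ a) : m / 10 ^ (a - 1) = 10 * (m / 10 ^ a) + dg m (a - 1) := by
  unfold dg
  have h : 10 ^ a = 10 ^ (a - 1) * 10 := by
    rw [← pow_succ]; congr 1; omega
  rw [h, ← Nat.div_div_eq_div_mul]
  omega

theorem mod_step (m j : ℕ) : m % 10 ^ (j + 1) = m % 10 ^ j + dg m j * 10 ^ j := by
  unfold dg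
  rw [pow_succ, Nat.mod_mul]
  ring

/-- A digit of a power depends only on the last digits. -/
theorem dg_pow (x k j : ℕ) : dg (x ^ k) j = (x % 10 ^ (j + 1)) ^ k / 10 ^ j % 10 := by
  unfold dg
  have h : x ^ k % 10 ^ (j + 1) = (x % 10 ^ (j + 1)) ^ k % 10 ^ (j + 1) := by
    rw [Nat.pow_mod]
  have h1 : ∀ z : ℕ, z / 10 ^ j % 10 = z % 10 ^ (j + 1) / 10 ^ j := by
    intro z
    rw [pow_succ, Nat.mod_mul_right_div_self]
  rw [h1, h1, h]

theorem nonPal_spec {y N : ℕ} (h : nonPal y N = true) : ∃ i < N, dg y i ≠ dg y (N - 1 - i) := by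
  unfold nonPal at h
  rw [List.any_eq_true] at h
  obtain ⟨i, hi, h2⟩ := h
  refine ⟨i, by simpa using hi, ?_⟩
  intro h3
  unfold dg at h3
  rw [h3] at h2
  simp at h2

theorem keep_spec (k A G m : ℕ) :
    keep k A G m = true ↔ G * 10 ^ m < (A + 1) ^ k ∧ A ^ k < (G + 1) * 10 ^ m := by
  unfold keep
  change cond (Nat.ble ((A + 1) ^ k) (G * 10 ^ m)) false
    (cond (Nat.ble ((G + 1) * 10 ^ m) (A ^ k)) false true) = true ↔ _
  rw [Bool.cond_eq_ite, Bool.cond_eq_ite]
  split_ifs with h h1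
  · rw [Nat.ble_eq] at h
    constructor
    · intro h2; simp at h2
    · intro h2; omega
  · rw [Nat.ble_eq] at h1
    constructor
    · intro h2; simp at h2
    · intro h2; omega
  · rw [Nat.ble_eq] at h h1
    constructor
    · intro _; omega
    · intro _; rfl

/-- A digit of the power of a number with one more leading digit. -/
theorem dg_step (r d j k : ℕ) (hj : 1 ≤ j) :
    (r + d * 10 ^ j) ^ k / 10 ^ j % 10 = (r ^ k / 10 ^ j % 10 + k * r ^ (k - 1) % 10 * d) % 10 := by
  obtain ⟨K, hK⟩ := Polynomial.powAddExpansion r (d * 10 ^ j) k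
  rw [hK]
  obtain ⟨i, rfl⟩ : ∃ i, j = i + 1 := ⟨j - 1, by omega⟩
  rw [Nat.cast_id]
  have e1 : r ^ k + k * r ^ (k - 1) * (d * 10 ^ (i + 1)) + K * (d * 10 ^ (i + 1)) ^ 2 =
      r ^ k + 10 ^ (i + 1) * (k * r ^ (k - 1) * d + 10 * (K * d ^ 2 * 10 ^ i)) := by
    ring
  rw [e1, Nat.add_mul_div_left _ _ (by positivity)]
  have e2 : r ^ k / 10 ^ (i + 1) + (k * r ^ (k - 1) * d + 10 * (K * d ^ 2 * 10 ^ i)) =
      (r ^ k / 10 ^ (i + 1) + k * r ^ (k - 1) * d) + 10 * (K * d ^ 2 * 10 ^ i) := by ring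
  rw [e2, Nat.add_mul_mod_self_left, Nat.add_mod, Nat.mul_mod (k * r ^ (k - 1)) d]
  conv_rhs => rw [Nat.add_mod, Nat.mul_mod (k * r ^ (k - 1) % 10) d, Nat.mod_mod, Nat.mod_mod]

theorem dead_succ (k e c fuel A u G j : ℕ) :
    dead k e c (fuel + 1) A u G j = true ↔
      (A = u / 18446744073709551616 → nonPal (A ^ k) (k * (j - 1) + 1 + e) = true) ∧
      ∀ d < 10, keep k (10 * A + d)
          (10 * G + ((u / 18446744073709551616) ^ k / 10 ^ j % 10 + c * d) % 10)
          ((k - 1) * j + e) = true →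
        dead k e c fuel (10 * A + d)
          ((u / 18446744073709551616 + d * 10 ^ j) * 18446744073709551616 +
            (10 * A + d) % 18446744073709551616)
          (10 * G + ((u / 18446744073709551616) ^ k / 10 ^ j % 10 + c * d) % 10)
          (j + 1) = true := by
  have key : ∀ g d : ℕ, (force (Nat.add (Nat.mul 10 A) d) fun A' =>
        force (Nat.add (Nat.mul (Nat.add (Nat.div u 18446744073709551616)
          (Nat.mul d (Nat.pow 10 j))) 18446744073709551616)
            (Nat.mod A' 18446744073709551616)) fun u' =>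
        force (Nat.add (Nat.mul 10 G) (Nat.mod (Nat.add g (Nat.mul c d)) 10)) fun G' =>
          cond (keep k A' G' (Nat.add (Nat.mul (Nat.pred k) j) e))
            (dead k e c fuel A' u' G' (Nat.succ j)) true) = true ↔
      (keep k (10 * A + d) (10 * G + (g + c * d) % 10)
          ((k - 1) * j + e) = true →
        dead k e c fuel (10 * A + d)
          ((u / 18446744073709551616 + d * 10 ^ j) * 18446744073709551616 +
            (10 * A + d) % 18446744073709551616)
          (10 * G + (g + c * d) % 10) (j + 1) = true) := by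
    intro g d
    rw [force_eq, force_eq, force_eq]
    change cond (keep k (10 * A + d)
          (10 * G + (g + c * d) % 10)
          ((k - 1) * j + e)) (dead k e c fuel (10 * A + d)
          ((u / 18446744073709551616 + d * 10 ^ j) * 18446744073709551616 +
            (10 * A + d) % 18446744073709551616)
          (10 * G + (g + c * d) % 10)
          (j + 1)) true = true ↔ _
    cases keep k (10 * A + d) (10 * G + (g + c * d) % 10)
          ((k - 1) * j + e) <;> simp
  rw [dead]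
  have h1 : (cond (Nat.beq A (Nat.div u 18446744073709551616))
        (nonPal (Nat.pow A k) (k * (j - 1) + 1 + e)) true) = true ↔
      (A = u / 18446744073709551616 → nonPal (A ^ k) (k * (j - 1) + 1 + e) = true) := by
    change (cond (Nat.beq A (u / 18446744073709551616))
        (nonPal (A ^ k) (k * (j - 1) + 1 + e)) true) = true ↔ _
    by_cases h : A = u / 18446744073709551616
    · rw [← h]; simp
    · have : Nat.beq A (u / 18446744073709551616) = false := by
        rw [Bool.eq_false_iff]; intro h2; exact h (Nat.eq_of_beq_eq_true h2)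
      rw [this]; simp [h]
  have h2 : (force (Nat.mod (Nat.div
          (Nat.pow (Nat.div u 18446744073709551616) k) (Nat.pow 10 j)) 10) fun g =>
       [0, 1, 2, 3, 4, 5, 6, 7, 8, 9].all fun d =>
        force (Nat.add (Nat.mul 10 A) d) fun A' =>
        force (Nat.add (Nat.mul (Nat.add (Nat.div u 18446744073709551616)
          (Nat.mul d (Nat.pow 10 j))) 18446744073709551616)
            (Nat.mod A' 18446744073709551616)) fun u' =>
        force (Nat.add (Nat.mul 10 G) (Nat.mod (Nat.add g (Nat.mul c d)) 10)) fun G' =>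
          cond (keep k A' G' (Nat.add (Nat.mul (Nat.pred k) j) e))
            (dead k e c fuel A' u' G' (Nat.succ j)) true) = true ↔
      ∀ d < 10, keep k (10 * A + d)
          (10 * G + ((u / 18446744073709551616) ^ k / 10 ^ j % 10 + c * d) % 10)
          ((k - 1) * j + e) = true →
        dead k e c fuel (10 * A + d)
          ((u / 18446744073709551616 + d * 10 ^ j) * 18446744073709551616 +
            (10 * A + d) % 18446744073709551616)
          (10 * G + ((u / 18446744073709551616) ^ k / 10 ^ j % 10 + c * d) % 10)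
          (j + 1) = true := by
    rw [force_eq, List.all_eq_true]
    constructor
    · intro h d hd
      exact (key _ d).1 (h d (by simp; omega))
    · intro h d hd
      exact (key _ d).2 (h d (by simp at hd; omega))
  rw [← h1, ← h2]
  cases (cond (Nat.beq A (Nat.div u 18446744073709551616))
        (nonPal (Nat.pow A k) (k * (j - 1) + 1 + e)) true) <;> simp

theorem keep_of {k : ℕ} (hk : 1 ≤ k) (x a b m : ℕ) (hb : b = k * a + m) :
    keep k (x / 10 ^ a) (x ^ k / 10 ^ b) m = true := by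
  rw [keep_spec]
  have ha : 0 < 10 ^ a := by positivity
  have hb0 : 0 < 10 ^ b := by positivity
  have e1 : (10 : ℕ) ^ b = 10 ^ m * (10 ^ a) ^ k := by
    rw [hb, ← pow_mul, ← pow_add]; congr 1; ring
  have h1 : x < (x / 10 ^ a + 1) * 10 ^ a := by
    have := Nat.lt_div_mul_add ha (a := x)
    nlinarith
  have h2 : x / 10 ^ a * 10 ^ a ≤ x := Nat.div_mul_le_self _ _
  have h3 : x ^ k < (x ^ k / 10 ^ b + 1) * 10 ^ b := by
    have := Nat.lt_div_mul_add hb0 (a := x ^ k)
    nlinarith
  have h4 : x ^ k / 10 ^ b * 10 ^ b ≤ x ^ k := Nat.div_mul_le_self _ _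
  have hp : 0 < (10 ^ a) ^ k := by positivity
  constructor
  · have h5 : x ^ k < ((x / 10 ^ a + 1) * 10 ^ a) ^ k := Nat.pow_lt_pow_left h1 (by omega)
    rw [mul_pow] at h5
    rw [e1] at h4
    have h6 : x ^ k / 10 ^ b * 10 ^ m * (10 ^ a) ^ k < (x / 10 ^ a + 1) ^ k * (10 ^ a) ^ k := by
      calc x ^ k / 10 ^ b * 10 ^ m * (10 ^ a) ^ k = x ^ k / (10 ^ m * (10 ^ a) ^ k) *
            (10 ^ m * (10 ^ a) ^ k) := by rw [e1]; ring
        _ ≤ x ^ k := h4
        _ < _ := h5
    exact lt_of_mul_lt_mul_right h6 (Nat.zero_le _)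
  · have h5 : (x / 10 ^ a * 10 ^ a) ^ k ≤ x ^ k := Nat.pow_le_pow_left h2 k
    rw [mul_pow] at h5
    rw [e1] at h3
    have h6 : (x / 10 ^ a) ^ k * (10 ^ a) ^ k < (x ^ k / 10 ^ b + 1) * 10 ^ m * (10 ^ a) ^ k := by
      calc (x / 10 ^ a) ^ k * (10 ^ a) ^ k ≤ x ^ k := h5
        _ < (x ^ k / (10 ^ m * (10 ^ a) ^ k) + 1) * (10 ^ m * (10 ^ a) ^ k) := h3
        _ = _ := by rw [e1]; ring
    exact lt_of_mul_lt_mul_right h6 (Nat.zero_le _)

theorem dead_sound {k e c n N x : ℕ} (hk : 1 ≤ k) (hN : N = k * (n - 1) + 1 + e)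
    (hc : c = k * (x % 10) ^ (k - 1) % 10)
    (hx : x < 10 ^ n) (hpx : ∀ i < n, dg x i = dg x (n - 1 - i))
    (hpy : ∀ i < N, dg (x ^ k) i = dg (x ^ k) (N - 1 - i)) (fuel : ℕ) :
    ∀ j u, 1 ≤ j → j ≤ n → u / 18446744073709551616 = x % 10 ^ j →
      dead k e c fuel (x / 10 ^ (n - j)) u (x ^ k / 10 ^ (N - j)) j = true → False := by
  induction fuel with
  | zero => intro j u _ _ _ h; simp [dead] at h
  | succ fuel ih =>
    intro j u hj1 hjn hu h
    rw [dead_succ, hu] at h
    obtain ⟨h1, h2⟩ := h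
    rcases hjn.eq_or_lt with hjn | hjn
    · subst hjn
      have h3 := h1 (by rw [Nat.sub_self, pow_zero, Nat.div_one, Nat.mod_eq_of_lt hx])
      rw [Nat.sub_self, pow_zero, Nat.div_one, ← hN] at h3
      obtain ⟨i, hi, hne⟩ := nonPal_spec h3
      exact hne (hpy i hi)
    · have hNj : j < N := by
        have : n - 1 ≤ k * (n - 1) := Nat.le_mul_of_pos_left _ hk
        omega
      have eA : 10 * (x / 10 ^ (n - j)) + dg x j = x / 10 ^ (n - (j + 1)) := by
        have := div_step x (n - j) (by omega)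
        rw [show n - (j + 1) = n - j - 1 by omega, this, hpx j hjn]
        congr 2; omega
      have er : x % 10 ^ j + dg x j * 10 ^ j = x % 10 ^ (j + 1) := (mod_step x j).symm
      have ec : k * (x % 10 ^ j) ^ (k - 1) % 10 = c := by
        have h10 : x % 10 ^ j % 10 = x % 10 :=
          Nat.mod_mod_of_dvd x (dvd_pow_self 10 (by omega))
        rw [hc, Nat.mul_mod, Nat.pow_mod, h10, Nat.mul_mod k, Nat.pow_mod (x % 10), Nat.mod_mod]
      have eg : ((x % 10 ^ j) ^ k / 10 ^ j % 10 + c * dg x j) % 10 =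
          (x % 10 ^ (j + 1)) ^ k / 10 ^ j % 10 := by
        rw [← er, dg_step _ _ _ _ hj1, ec]
      have eG : 10 * (x ^ k / 10 ^ (N - j)) + (x % 10 ^ (j + 1)) ^ k / 10 ^ j % 10
          = x ^ k / 10 ^ (N - (j + 1)) := by
        have := div_step (x ^ k) (N - j) (by omega)
        rw [show N - (j + 1) = N - j - 1 by omega, this, ← dg_pow, hpy j hNj]
        congr 2; omega
      have h3 := h2 (dg x j) (dg_lt x j)
      rw [eg, er, eA, eG] at h3
      have hmod := Nat.mod_lt (x / 10 ^ (n - (j + 1))) (show 0 < 18446744073709551616 by norm_num)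
      refine ih (j + 1) _ (by omega) hjn (by omega) (h3 (keep_of hk x _ _ _ ?_))
      rw [hN]
      obtain ⟨c, rfl⟩ : ∃ c, n = j + 1 + c := ⟨n - (j + 1), by omega⟩
      obtain ⟨k', rfl⟩ : ∃ k', k = k' + 1 := ⟨k - 1, by omega⟩
      have e3 : (k' + 1) * (j + 1 + c - 1) + 1 + e - (j + 1) = k' * j + (k' + 1) * c + e := by
        rw [show j + 1 + c - 1 = j + c by omega]
        have : (k' + 1) * (j + c) = k' * j + j + (k' + 1) * c := by ring
        omega
      rw [e3]
      simp only [Nat.add_sub_cancel_left, Nat.add_sub_cancel]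
      ring

theorem rootDead_sound {k e n N x fuel : ℕ} (hk : 1 ≤ k) (hn : 1 ≤ n)
    (hN : N = k * (n - 1) + 1 + e)
    (hx : x < 10 ^ n) (hx1 : 10 ^ (n - 1) ≤ x) (hy : x ^ k < 10 ^ N)
    (hpx : ∀ i < n, dg x i = dg x (n - 1 - i))
    (hpy : ∀ i < N, dg (x ^ k) i = dg (x ^ k) (N - 1 - i))
    (h : rootDead k fuel e = true) : False := by
  have hN1 : 1 ≤ N := by omega
  have ha : x / 10 ^ (n - 1) < 10 := by
    rw [Nat.div_lt_iff_lt_mul (by positivity), ← pow_succ']
    rwa [Nat.sub_add_cancel hn]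
  have ha1 : 1 ≤ x / 10 ^ (n - 1) := by
    rw [Nat.one_le_div_iff (by positivity)]; exact hx1
  have hg : x ^ k / 10 ^ (N - 1) < 10 := by
    rw [Nat.div_lt_iff_lt_mul (by positivity), ← pow_succ']
    rwa [Nat.sub_add_cancel hN1]
  have ea : x % 10 ^ 1 = x / 10 ^ (n - 1) := by
    have h0 := hpx 0 (by omega)
    unfold dg at h0
    rw [pow_zero, Nat.div_one, Nat.sub_zero, Nat.mod_eq_of_lt ha] at h0
    rw [pow_one]; exact h0
  have eg : (x / 10 ^ (n - 1)) ^ k % 10 = x ^ k / 10 ^ (N - 1) := by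
    have h0 := hpy 0 (by omega)
    unfold dg at h0
    rw [pow_zero, Nat.div_one, Nat.sub_zero, Nat.mod_eq_of_lt hg] at h0
    rw [← h0, ← ea, pow_one, ← Nat.pow_mod]
  unfold rootDead at h
  rw [List.all_eq_true] at h
  have h1 := h (x / 10 ^ (n - 1)) (by simp; omega)
  rw [force_eq, force_eq, eg, keep_of hk x (n - 1) (N - 1) e (by omega)] at h1
  refine dead_sound hk hN ?_ hx hpx hpy fuel 1 _ le_rfl hn ?_ h1
  · rw [← ea, pow_one]
  rw [ea]
  omega

end Pool.Agent.H.P40
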